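import Pool.Agent.Helper14.AY.GoalsA

/-!
# AY, packet KER: the pair of kernels `φ`, `ψ` with `∇ψ = - φ y` and `∫ φ = 1`
-/

open Complex Metric Set Filter Topology MeasureTheory
open scoped ContDiff ComplexConjugate ComplexOrder Manifold Matrix

namespace Pool.Agent.Helper59.AY

open Pool.Agent.Helper95.Lin Pool.Agent.Helper16.Abund Pool.Agent.Helper92.Orb Pool.Agent.Helper10.SP
  Pool.Agent.Helper95.RK Pool.Agent.Helper57.HS Pool.Agent.Helper14.AY

/-- The square of the euclidean norm. -/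
noncomputable def qq {n : ℕ} (y : Cn n) : ℝ := ∑ j : Fin n, ((y j).re ^ 2 + (y j).im ^ 2)

/-- The derivative of `expNegInvGlue`. -/
noncomputable def gp (x : ℝ) : ℝ := x⁻¹ ^ 2 * expNegInvGlue x

lemma hasDerivAt_gp (x : ℝ) : HasDerivAt expNegInvGlue (gp x) x := by
  have h := expNegInvGlue.hasDerivAt_polynomial_eval_inv_mul (1 : Polynomial ℝ) x
  simpa [gp] using h

lemma contDiff_gp : ContDiff ℝ ∞ gp := by
  have h := expNegInvGlue.contDiff_polynomial_eval_inv_mul (n := ⊤) (Polynomial.X ^ 2 : Polynomial ℝ)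
  have e : gp = fun x : ℝ => (Polynomial.X ^ 2 : Polynomial ℝ).eval x⁻¹ * expNegInvGlue x := by
    funext x; simp [gp]
  rw [e]; exact h

lemma gp_nonneg (x : ℝ) : 0 ≤ gp x := mul_nonneg (sq_nonneg _) (expNegInvGlue.nonneg x)

lemma gp_pos {x : ℝ} (hx : 0 < x) : 0 < gp x :=
  mul_pos (by positivity) (expNegInvGlue.pos_of_pos hx)

lemma gp_zero_of_nonpos {x : ℝ} (hx : x ≤ 0) : gp x = 0 := by
  simp [gp, expNegInvGlue.zero_of_nonpos hx]

lemma contDiff_qq {n : ℕ} : ContDiff ℝ ∞ (qq (n := n)) := by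
  unfold qq
  refine ContDiff.sum fun j _ => ?_
  have h1 : ContDiff ℝ ∞ (fun y : Cn n => (y j).re) :=
    Complex.reCLM.contDiff.comp (contDiff_apply ℝ ℂ j)
  have h2 : ContDiff ℝ ∞ (fun y : Cn n => (y j).im) :=
    Complex.imCLM.contDiff.comp (contDiff_apply ℝ ℂ j)
  exact (h1.pow 2).add (h2.pow 2)

lemma fderiv_qq {n : ℕ} (y v : Cn n) :
    fderiv ℝ (qq (n := n)) y v = 2 * ∑ j, (conj (y j) * v j).re := by
  have h1 : ∀ j : Fin n, HasFDerivAt (fun y : Cn n => (y j).re)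
      (Complex.reCLM.comp (ContinuousLinearMap.proj (R := ℝ) (φ := fun _ : Fin n => ℂ) j)) y := by
    intro j
    exact (Complex.reCLM.comp
      (ContinuousLinearMap.proj (R := ℝ) (φ := fun _ : Fin n => ℂ) j)).hasFDerivAt
  have h2 : ∀ j : Fin n, HasFDerivAt (fun y : Cn n => (y j).im)
      (Complex.imCLM.comp (ContinuousLinearMap.proj (R := ℝ) (φ := fun _ : Fin n => ℂ) j)) y := by
    intro j
    exact (Complex.imCLM.comp
      (ContinuousLinearMap.proj (R := ℝ) (φ := fun _ : Fin n => ℂ) j)).hasFDerivAt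
  have h3 : HasFDerivAt (qq (n := n)) (∑ j : Fin n, (_ + _)) y :=
    HasFDerivAt.fun_sum fun j _ => ((h1 j).pow 2).add ((h2 j).pow 2)
  rw [h3.fderiv, sum_apply, Finset.mul_sum]
  refine Finset.sum_congr rfl fun j _ => ?_
  simp
  ring

lemma norm_le_of_qq_lt {n : ℕ} {y : Cn n} (h : qq y < 1) : ‖y‖ ≤ 1 := by
  refine (pi_norm_le_iff_of_nonneg zero_le_one).2 fun j => ?_
  have h1 : (y j).re ^ 2 + (y j).im ^ 2 ≤ qq y :=
    Finset.single_le_sum (f := fun j : Fin n => (y j).re ^ 2 + (y j).im ^ 2)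
      (fun i _ => by positivity) (Finset.mem_univ j)
  have h2 : ‖y j‖ ^ 2 = (y j).re ^ 2 + (y j).im ^ 2 := by
    rw [← Complex.normSq_eq_norm_sq, Complex.normSq_apply]; ring
  have h3 : ‖y j‖ ^ 2 ≤ 1 := by linarith
  nlinarith [norm_nonneg (y j)]

theorem ker : S_KER := by
  intro n _
  set φ₀ : Cn n → ℝ := fun y => 2 * gp (1 - qq y) with hφ₀
  set ψ₀ : Cn n → ℝ := fun y => expNegInvGlue (1 - qq y) with hψ₀
  have hq : ContDiff ℝ ∞ (fun y : Cn n => 1 - qq y) := contDiff_const.sub contDiff_qq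
  have hφ : ContDiff ℝ ∞ φ₀ := contDiff_const.mul (contDiff_gp.comp hq)
  have hψ : ContDiff ℝ ∞ ψ₀ := expNegInvGlue.contDiff.comp hq
  have sφ : HasCompactSupport φ₀ := by
    refine HasCompactSupport.of_support_subset_isCompact (isCompact_closedBall (0 : Cn n) 1) ?_
    intro y hy
    rw [Function.mem_support] at hy
    rw [mem_closedBall_zero_iff]
    refine norm_le_of_qq_lt ?_
    by_contra hc
    exact hy (by simp only [hφ₀]; rw [gp_zero_of_nonpos (by linarith [not_lt.1 hc]), mul_zero])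
  have sψ : HasCompactSupport ψ₀ := by
    refine HasCompactSupport.of_support_subset_isCompact (isCompact_closedBall (0 : Cn n) 1) ?_
    intro y hy
    rw [Function.mem_support] at hy
    rw [mem_closedBall_zero_iff]
    refine norm_le_of_qq_lt ?_
    by_contra hc
    exact hy (expNegInvGlue.zero_of_nonpos (by linarith [not_lt.1 hc]))
  have hd : ∀ y v : Cn n, fderiv ℝ ψ₀ y v = - φ₀ y * ∑ j, (conj (y j) * v j).re := by
    intro y v
    have e1 : HasFDerivAt (qq (n := n)) (fderiv ℝ (qq (n := n)) y) y :=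
      (contDiff_qq.differentiable (by simp) y).hasFDerivAt
    have e2 : HasFDerivAt ψ₀ (gp (1 - qq y) • (-(fderiv ℝ (qq (n := n)) y))) y :=
      HasDerivAt.comp_hasFDerivAt (h₂ := expNegInvGlue) (f := fun y : Cn n => 1 - qq y) y
        (hasDerivAt_gp (1 - qq y)) (e1.const_sub 1)
    rw [e2.fderiv]
    simp only [smul_apply, neg_apply, fderiv_qq, smul_eq_mul,
      hφ₀]
    ring
  have hpos : 0 < ∫ y, φ₀ y := by
    refine Continuous.integral_pos_of_hasCompactSupport_nonneg_nonzero (x := 0) hφ.continuous sφ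
      (fun y => mul_nonneg zero_le_two (gp_nonneg _)) ?_
    have : qq (0 : Cn n) = 0 := by simp [qq]
    simp only [hφ₀, this]
    exact (mul_pos two_pos (gp_pos (by norm_num))).ne'
  refine ⟨fun y => (∫ y, φ₀ y)⁻¹ * φ₀ y, fun y => (∫ y, φ₀ y)⁻¹ * ψ₀ y,
    ⟨contDiff_const.mul hφ, sφ.mul_left⟩, ⟨contDiff_const.mul hψ, sψ.mul_left⟩, ?_, ?_⟩
  · rw [integral_const_mul, inv_mul_cancel₀ hpos.ne']
  · intro y v
    rw [fderiv_const_mul (hψ.differentiable (by simp) y)]
    simp only [smul_apply, smul_eq_mul, hd]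
    ring

end Pool.Agent.Helper59.AY
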